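import Pool.Agent.helper42.CQ.SpecC

/-!
Row `cq:L3A` (MP_ba8873_co): a chain to `K`.
-/

set_option autoImplicit false

namespace Pool.Agent.helper42.CQ

open Finset Pool.Agent.helper24.CG

private theorem L3A_cst {V : Type} [DecidableEq V] (l : ℝ) (f g : V → V → ℝ) (h : ∀ v u, f v u ≤ g v u) :
    ∀ (xs : List (V × Finset V)) (B : Finset V), cst l g xs B ≤ cst l f xs B
  | [], _ => le_refl _
  | x :: xs, B => by
      unfold cst
      apply add_le_add _ (L3A_cst l f g h xs _)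
      apply max_le_max le_rfl
      have : ∑ u ∈ B, f x.1 u ≤ ∑ u ∈ B, g x.1 u := Finset.sum_le_sum fun u _ => h _ _
      linarith

theorem L3A (hPAY : PAY_stmt) (hCLO : CLO_stmt) (hGS1 : GS1_stmt) (hGS2 : GS2_stmt) (hYZO : YZO_stmt) (hCPS : CPS_stmt) (hWTA : WTA_stmt) (hGFB : GFB_stmt) : L3A_stmt := by
  classical
  intro N m b q p M k s c H K X hN hm hb hq hp hc hM hk hs hH hK hcond
  set β : ℝ := Real.log (1 + (b : ℝ) / (m : ℝ)) with hβ
  set l : ℝ := Real.log N / β with hl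
  have hmR : (0 : ℝ) < m := by exact_mod_cast hm
  have hbR : (0 : ℝ) < b := by exact_mod_cast hb
  have hβ0 : 0 < β := Real.log_pos (by have := div_pos hbR hmR; linarith)
  have hlogN : 0 ≤ Real.log N := Real.log_nonneg (by exact_mod_cast hN)
  have hl0 : 0 ≤ l := div_nonneg hlogN hβ0.le
  have hwt := (hWTA N m b K H hm hb hH).1
  have hkF : 0 ≤ kF N m b q p := by
    unfold kF
    apply Real.log_nonneg
    have : 0 ≤ 6 * (m : ℝ) * (q : ℝ) ^ 2 + 3 * ((q : ℝ) + 1) * (nn N m b q p : ℝ) := by positivity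
    linarith
  have hkP : 0 ≤ kP N q p c := by
    unfold kP
    apply add_nonneg
    · apply Real.log_nonneg
      have h1 : (1 : ℝ) ≤ ((q : ℝ) + 1) ^ 3 := one_le_pow₀ (by have : (0 : ℝ) ≤ q := Nat.cast_nonneg q; linarith)
      nlinarith
    · positivity
  obtain ⟨Y₀, hY0K, hY0c, hY1, hY2⟩ := hYZO N m q M k K H hq hk hH hK hcond
  -- step 1
  obtain ⟨B1, w1, _, hB1, hch1, hw1⟩ := hPAY N m b q p c H X K ∅ Y₀ 0 hN hm hb hq hp hc hH hK.le Chain.nil
    (Finset.empty_subset _) hY0K (Finset.disjoint_empty_left _)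
  rw [Finset.empty_union] at hB1 hch1 hw1
  have hgf1 : gf b m K H l Y₀ - gf b m K H l B1 ≤ (q : ℝ) / k * l := by
    unfold gf
    have e1 : ∑ e ∈ ed B1, wt b m K H e ≤ ∑ e ∈ ed Y₀, wt b m K H e := by
      apply Finset.sum_le_sum_of_subset_of_nonneg
      · exact Finset.powersetCard_mono hB1
      · intro e _ _
        exact (hwt e).1
    have e2 : (Y₀.card : ℝ) ≤ (q : ℝ) / k := by
      rw [le_div_iff₀ (by exact_mod_cast hk)]
      have : k * Y₀.card ≤ q := hY0c
      have h' : ((k * Y₀.card : ℕ) : ℝ) ≤ q := by exact_mod_cast this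
      push_cast at h'
      linarith
    have e3 : (Y₀.card : ℝ) * l ≤ (q : ℝ) / k * l := mul_le_mul_of_nonneg_right e2 hl0
    have e4 : 0 ≤ (B1.card : ℝ) * l := by positivity
    linarith
  -- step 2
  obtain ⟨w2, hch2, hw2⟩ := hCLO N m b q p M c H X K Y₀ Y₀ (K.filter fun z => WF M K H z) w1 hM hH hK.le hch1
    hY0K (Finset.Subset.refl _) (Finset.filter_subset _ _) hY1 hY2
    (fun z hz => Or.inr (Finset.mem_filter.mp hz).2)
  set B2 : Finset (Fin N) := Y₀ ∪ (K.filter fun z => WF M K H z).biUnion (cmp M K H) with hB2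
  have hcmpK : ∀ z, cmp M K H z ⊆ K := fun z => Finset.filter_subset _ _
  have hB2K : B2 ⊆ K := by
    rw [hB2]
    apply Finset.union_subset hY0K
    intro v hv
    rw [Finset.mem_biUnion] at hv
    obtain ⟨z, _, hz⟩ := hv
    exact hcmpK z hz
  have hY0B2 : Y₀ ⊆ B2 := Finset.subset_union_left
  obtain ⟨Gw, Cs, hdis, hCs, hG, hGw⟩ := hCPS N M s K H hM
  have hGwB2 : Gw ⊆ B2 := by
    intro v hv
    obtain ⟨z, hz, hWF, hvz⟩ := hGw v hv
    rw [hB2, Finset.mem_union, Finset.mem_biUnion]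
    exact Or.inr ⟨z, Finset.mem_filter.mpr ⟨hz, hWF⟩, hvz⟩
  -- step 3
  obtain ⟨xs, hxs1, hxs2, hxs3⟩ := hGS2 (Fin N) l (fun v u => if u = v then 0 else wt b m K H {v, u}) s Gw
    (Gs M K s H) Cs hl0 (by
      intro u v
      by_cases h : v = u
      · simp only [h, if_true]
        exact ⟨le_refl _, zero_le_one⟩
      · simp only [h, if_false]
        exact hwt _) hs hdis (fun C hC => ⟨(hCs C hC).1, (hCs C hC).2.1⟩) hG
  have hcst := L3A_cst l (fun v u => if u = v then 0 else wt b m K H {v, u}) (fun v u => wt b m K H {v, u})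
    (by
      intro v u
      by_cases h : u = v
      · simp only [h, if_true]
        exact (hwt _).1
      · simp only [h, if_false]
        exact le_refl _) xs Gw
  have hsumf : ∀ v ∈ Gs M K s H, (∑ u ∈ Gs M K s H, if u = v then 0 else wt b m K H {v, u})
      = wv b m K H v (Gs M K s H) := by
    intro v hv
    unfold wv
    rw [← Finset.add_sum_erase _ _ hv, if_pos rfl, zero_add]
    apply Finset.sum_congr rfl
    intro u hu
    rw [if_neg (Finset.ne_of_mem_erase hu)]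
  have hGsK : Gs M K s H ⊆ K := Finset.filter_subset _ _
  have hcst2 : cst l (fun v u => wt b m K H {v, u}) xs Gw ≤
      1 / (s : ℝ) * ∑ v ∈ Gs M K s H, (l - min (wv b m K H v (Gs M K s H)) l / 2) + q := by
    have e1 : ∑ v ∈ Gs M K s H, (l - min (∑ u ∈ Gs M K s H, if u = v then 0 else wt b m K H {v, u}) l / 2)
        = ∑ v ∈ Gs M K s H, (l - min (wv b m K H v (Gs M K s H)) l / 2) := by
      apply Finset.sum_congr rfl
      intro v hv
      rw [hsumf v hv]
    have e2 : ((Gs M K s H).card : ℝ) ≤ q := by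
      rw [← hK]
      exact_mod_cast Finset.card_le_card hGsK
    have e3 := hcst.trans hxs3
    rw [e1] at e3
    linarith
  -- step 4
  obtain ⟨B3, w3, hch3, hB23, hB3K, hxB3, hw3⟩ := hGS1 N m b q p M c H X K Y₀ xs B2 Gw w2 hN hm hb hq hp hc hM hH
    hK.le hY1 hY2 (by
      intro x hx
      obtain ⟨h1, h2⟩ := hxs1 x hx
      exact (hCs x.2 h2).2.2 x.1 h1) hch2 hB2K hY0B2 hGwB2
  have hGB3 : Gs M K s H ⊆ B3 := by
    intro v hv
    rcases (hG v).mp hv with h | ⟨C, hC, hvC⟩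
    · exact hB23 (hGwB2 h)
    · obtain ⟨x, hx, hxC⟩ := hxs2 C hC
      apply hxB3 x hx
      rw [hxC]
      exact hvC
  -- step 5
  obtain ⟨Y, w5, hB3Y, hYK, hch5, hw5⟩ := hPAY N m b q p c H X K B3 (K \ B3) w3 hN hm hb hq hp hc hH hK.le hch3
    hB3K Finset.sdiff_subset Finset.disjoint_sdiff
  rw [Finset.union_sdiff_of_subset hB3K] at hYK hch5 hw5
  refine ⟨Y, w5, hGB3.trans hB3Y, hYK, hch5, ?_⟩
  -- cardinalities
  have c1 : (Y₀.card : ℝ) + ((B2 \ Y₀).card : ℝ) = B2.card := by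
    have := Finset.card_sdiff_add_card_eq_card hY0B2
    have h' : (((B2 \ Y₀).card + Y₀.card : ℕ) : ℝ) = B2.card := by exact_mod_cast this
    push_cast at h'
    linarith
  have c2 : (B2.card : ℝ) + ((B3 \ B2).card : ℝ) = B3.card := by
    have := Finset.card_sdiff_add_card_eq_card hB23
    have h' : (((B3 \ B2).card + B2.card : ℕ) : ℝ) = B3.card := by exact_mod_cast this
    push_cast at h'
    linarith
  have c3 : (B3.card : ℝ) + ((K \ B3).card : ℝ) = q := by
    have := Finset.card_sdiff_add_card_eq_card hB3K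
    rw [hK] at this
    have h' : (((K \ B3).card + B3.card : ℕ) : ℝ) = q := by exact_mod_cast this
    push_cast at h'
    linarith
  have c4 : ((B3 \ B2).card : ℝ) ≤ q := by
    have h1 : (0 : ℝ) ≤ B2.card := Nat.cast_nonneg _
    have h2 : (0 : ℝ) ≤ ((K \ B3).card : ℝ) := Nat.cast_nonneg _
    linarith
  have f1 : (Y₀.card : ℝ) * kF N m b q p + ((B2 \ Y₀).card : ℝ) * kF N m b q p + ((B3 \ B2).card : ℝ) * kF N m b q p
      + ((K \ B3).card : ℝ) * kF N m b q p = q * kF N m b q p := by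
    rw [← c3, ← c2, ← c1]; ring
  have f2 : ((B3 \ B2).card : ℝ) * kP N q p c ≤ q * kP N q p c := mul_le_mul_of_nonneg_right c4 hkP
  have g1 : β * (gf b m K H l Y₀ - gf b m K H l B1) ≤ β * ((q : ℝ) / k * l) := mul_le_mul_of_nonneg_left hgf1 hβ0.le
  have g2 : β * cst l (fun v u => wt b m K H {v, u}) xs Gw ≤
      β * (1 / (s : ℝ) * ∑ v ∈ Gs M K s H, (l - min (wv b m K H v (Gs M K s H)) l / 2) + q) :=
    mul_le_mul_of_nonneg_left hcst2 hβ0.le
  have hw3' : w2 - β * cst l (fun v u => wt b m K H {v, u}) xs Gw -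
      (((B3 \ B2).card : ℝ) * kF N m b q p + ((B3 \ B2).card : ℝ) * kP N q p c) ≤ w3 := by
    rw [← mul_add]; exact hw3
  have expand : β * ((q : ℝ) / k * l + 1 / (s : ℝ) * ∑ v ∈ Gs M K s H, (l - min (wv b m K H v (Gs M K s H)) l / 2) +
        (q : ℝ) + gf b m K H l K - gf b m K H l Y)
      = β * ((q : ℝ) / k * l) + β * (1 / (s : ℝ) * ∑ v ∈ Gs M K s H, (l - min (wv b m K H v (Gs M K s H)) l / 2) + q)
        + β * (gf b m K H l K - gf b m K H l Y) := by ring
  rw [expand]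
  have fee : ((q : ℝ) + 2) * (kF N m b q p + kP N q p c) = q * kF N m b q p + 2 * kF N m b q p + q * kP N q p c + 2 * kP N q p c := by
    ring
  rw [fee]
  linarith

end Pool.Agent.helper42.CQ
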