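import Pool.Agent.helper42.CQ.SpecC

/-!
Row `cq:NU2` (MP_ba8873_co): numbers for `b = 2`.
-/

set_option autoImplicit false

namespace Pool.Agent.helper42.CQ

open Finset Pool.Agent.helper24.CG

private theorem NU2_a (m : ℕ) (hm : 10 ^ 9 ≤ m) : 0.548 < aa m 2 ∧ aa m 2 ≤ 1 := by
  have hmR : (10 : ℝ) ^ 9 ≤ m := by exact_mod_cast hm
  have hm0 : (0 : ℝ) < m := by linarith
  unfold aa
  rw [Nat.cast_ofNat]
  have h3 : (1 : ℝ) + 2 = 3 := by norm_num
  rw [h3]
  have h2m : 0 < 2 / (m : ℝ) := by positivity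
  have ht0 : 0 < Real.log (1 + 2 / (m : ℝ)) := Real.log_pos (by linarith)
  have hup : (m : ℝ) * Real.log (1 + 2 / (m : ℝ)) ≤ 2 := by
    have h1 : Real.log (1 + 2 / (m : ℝ)) ≤ 2 / m := by
      have := Real.log_le_sub_one_of_pos (show (0 : ℝ) < 1 + 2 / (m : ℝ) by linarith)
      linarith
    calc (m : ℝ) * Real.log (1 + 2 / (m : ℝ)) ≤ m * (2 / m) := mul_le_mul_of_nonneg_left h1 hm0.le
      _ = 2 := by field_simp
  have hlow : Real.log 3 ≤ (m : ℝ) * Real.log (1 + 2 / (m : ℝ)) := by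
    rw [← Real.log_pow]
    apply Real.log_le_log (by norm_num)
    have h1 := one_add_mul_le_pow (show (-2 : ℝ) ≤ 2 / m by linarith) m
    have h2 : (1 : ℝ) + m * (2 / m) = 3 := by
      field_simp
      norm_num
    rw [h2] at h1
    exact h1
  have hpos : 0 < (m : ℝ) * Real.log (1 + 2 / (m : ℝ)) := mul_pos hm0 ht0
  have hlog3 : 19 / 12 * Real.log 2 ≤ Real.log 3 := by
    have h1 : Real.log ((2 : ℝ) ^ 19) ≤ Real.log ((3 : ℝ) ^ 12) := Real.log_le_log (by norm_num) (by norm_num)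
    rw [Real.log_pow, Real.log_pow] at h1
    push_cast at h1
    linarith
  have h2 := Real.log_two_gt_d9
  constructor
  · rw [lt_div_iff₀ hpos]
    nlinarith
  · rw [div_le_one hpos]
    exact hlow

theorem NU2 : NU2_stmt := by
  intro m hm
  obtain ⟨h1, h2⟩ := NU2_a m hm
  have hmR : (10 : ℝ) ^ 9 ≤ m := by exact_mod_cast hm
  have hm0 : (0 : ℝ) < m := by linarith
  generalize aa m 2 = a at h1 h2 ⊢
  have ha0 : 0 < a := by linarith
  refine ⟨by linarith, h2, by nlinarith, by nlinarith, ?_, ?_, by linarith⟩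
  · have : (1 - 1 / (2 * a)) * (a - 1 / 2) = (a - 1 / 2) ^ 2 / a := by
      field_simp
    rw [this, le_div_iff₀ ha0]
    nlinarith
  · have e1 : 2 * ((200 : ℝ) - 1) ^ 2 / (2 * (m : ℝ)) = 39601 / m := by
      norm_num
      field_simp
      norm_num
    rw [e1]
    have e2 : (39601 : ℝ) / m ≤ 39601 / 10 ^ 9 := div_le_div_of_nonneg_left (by norm_num) (by norm_num) hmR
    have e3 : (1 - a) / (1 / 1000) + 1 ≤ 453 := by
      have : (1 - a) / (1 / 1000) = 1000 * (1 - a) := by ring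
      rw [this]; linarith
    have e4 : 0 ≤ (1 - a) / (1 / 1000) + 1 := by
      have : (1 - a) / (1 / 1000) = 1000 * (1 - a) := by ring
      rw [this]; linarith
    have e5 : 0 ≤ (39601 : ℝ) / m := by positivity
    calc ((1 - a) / (1 / 1000) + 1) * (39601 / m) ≤ 453 * (39601 / 10 ^ 9) := mul_le_mul e3 e2 e5 (by norm_num)
      _ ≤ 1 / 8 := by norm_num

end Pool.Agent.helper42.CQ
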